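import Pool.Agent.W188.QS.Stm

set_option autoImplicit false

/-! # Project QS, part PC: bounds for a Gaussian average -/

open MeasureTheory Set Filter Topology

namespace Pool.Agent.W864.QS

open Pool.Agent.W188.QS

/-- the centred Gaussian -/
noncomputable def ps (Δ x : ℝ) : ℝ := Real.exp (-(x / Δ) ^ 2)

lemma ps_eq (Δ : ℝ) : ps Δ = fun x => Real.exp (-(1 / Δ ^ 2) * x ^ 2) := by
  funext x
  unfold ps
  congr 1
  rw [div_pow]
  ring

lemma ps_pos (Δ x : ℝ) : 0 < ps Δ x := Real.exp_pos _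

lemma ps_int {Δ : ℝ} (h : 0 < Δ) : Integrable (ps Δ) := by
  rw [ps_eq]
  exact integrable_exp_neg_mul_sq (by positivity)

lemma sq_eq {Δ : ℝ} (h : 0 < Δ) : √(Real.pi / (1 / Δ ^ 2)) = √Real.pi * Δ := by
  have e : Real.pi / (1 / Δ ^ 2) = Real.pi * Δ ^ 2 := by
    field_simp
  rw [e, Real.sqrt_mul Real.pi_pos.le, Real.sqrt_sq h.le]

lemma ps_total {Δ : ℝ} (h : 0 < Δ) : ∫ x, ps Δ x = √Real.pi * Δ := by
  rw [ps_eq, integral_gaussian, sq_eq h]

lemma ps_half {Δ : ℝ} (h : 0 < Δ) : ∫ x in Ioi 0, ps Δ x = √Real.pi * Δ / 2 := by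
  rw [ps_eq, integral_gaussian_Ioi, sq_eq h]

lemma ps_neg (Δ x : ℝ) : ps Δ (-x) = ps Δ x := by
  unfold ps
  congr 1
  ring

lemma ps_tail {Δ r : ℝ} (h : 0 < Δ) (hr : 0 ≤ r) :
    ∫ x in Ioi r, ps Δ x ≤ Real.exp (-(r / Δ) ^ 2) * (√Real.pi * Δ / 2) := by
  have e1 : ∫ x in Ioi r, ps Δ (x - r) = ∫ x in Ioi 0, ps Δ x := by
    rw [← integral_indicator measurableSet_Ioi, ← integral_indicator measurableSet_Ioi,
      ← integral_sub_right_eq_self (fun x => (Ioi 0).indicator (ps Δ) x) r]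
    congr 1
    funext x
    simp only [indicator, mem_Ioi, sub_pos]
  rw [← ps_half h, ← e1, ← integral_const_mul]
  apply setIntegral_mono_on (ps_int h).integrableOn
  · exact ((ps_int h).comp_sub_right r).integrableOn.const_mul _
  · exact measurableSet_Ioi
  · intro x hx
    rw [mem_Ioi] at hx
    unfold ps
    rw [← Real.exp_add]
    apply Real.exp_le_exp.2
    have hx0 : 0 ≤ (x - r) * r := mul_nonneg (by linarith) hr
    have : (x / Δ) ^ 2 = (r / Δ) ^ 2 + ((x - r) / Δ) ^ 2 + 2 * ((x - r) * r) / Δ ^ 2 := by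
      field_simp
      ring
    have h3 : 0 ≤ 2 * ((x - r) * r) / Δ ^ 2 := by positivity
    linarith

lemma gg_ps (τ Δ t : ℝ) : gg τ Δ t = ps Δ (t - τ) := rfl

lemma gg_int {Δ : ℝ} (h : 0 < Δ) (t : ℝ) : Integrable (fun τ => gg τ Δ t) :=
  (ps_int h).comp_sub_left t

lemma gg_total {Δ : ℝ} (h : 0 < Δ) (t : ℝ) : ∫ τ, gg τ Δ t = √Real.pi * Δ := by
  simp only [gg_ps]
  rw [integral_sub_left_eq_self (ps Δ) volume t, ps_total h]

lemma gg_left {Δ r : ℝ} (h : 0 < Δ) (hr : 0 ≤ r) (t : ℝ) :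
    ∫ τ in Iic (t - r), gg τ Δ t ≤ Real.exp (-(r / Δ) ^ 2) * (√Real.pi * Δ / 2) := by
  refine le_trans (le_of_eq ?_) (ps_tail h hr)
  rw [← integral_Ici_eq_integral_Ioi, ← integral_indicator measurableSet_Iic,
    ← integral_indicator measurableSet_Ici,
    ← integral_sub_left_eq_self (fun x => (Ici r).indicator (ps Δ) x) volume t]
  congr 1
  funext x
  simp only [indicator, mem_Iic, mem_Ici, gg_ps]
  congr 1
  rw [eq_iff_iff]
  constructor <;> intro h' <;> linarith

lemma gg_right {Δ r : ℝ} (h : 0 < Δ) (hr : 0 ≤ r) (t : ℝ) :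
    ∫ τ in Ioi (t + r), gg τ Δ t ≤ Real.exp (-(r / Δ) ^ 2) * (√Real.pi * Δ / 2) := by
  refine le_trans (le_of_eq ?_) (ps_tail h hr)
  have e : ∫ x in Ioi r, ps Δ x = ∫ x in Iio (-r), ps Δ x := by
    rw [← integral_Iic_eq_integral_Iio]
    have := integral_comp_neg_Iic (-r) (ps Δ)
    rw [neg_neg] at this
    rw [← this]
    simp only [ps_neg]
  rw [e, ← integral_indicator measurableSet_Ioi, ← integral_indicator measurableSet_Iio,
    ← integral_sub_left_eq_self (fun x => (Iio (-r)).indicator (ps Δ) x) volume t]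
  congr 1
  funext x
  simp only [indicator, mem_Ioi, mem_Iio, gg_ps]
  congr 1
  rw [eq_iff_iff]
  constructor <;> intro h' <;> linarith

/-- the set of integration -/
def SS (u v t : ℝ) : Set ℝ := Ioc u v ∩ Ioo (2 * t / 3) (2 * t)

lemma SS_meas (u v t : ℝ) : MeasurableSet (SS u v t) := measurableSet_Ioc.inter measurableSet_Ioo

lemma PC_eq {u v : ℝ} (huv : u ≤ v) (Δ t : ℝ) :
    PC u v Δ t = 1 / (√Real.pi * Δ) * ∫ τ in SS u v t, gg τ Δ t := by
  unfold PC SS
  rw [intervalIntegral.integral_of_le huv]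
  congr 1
  rw [← setIntegral_indicator measurableSet_Ioo]
  congr 1
  funext τ
  simp only [indicator, mem_Ioo]
  congr 1
  rw [eq_iff_iff]
  constructor
  · rintro ⟨h1, h2⟩
    constructor <;> linarith
  · rintro ⟨h1, h2⟩
    constructor <;> linarith

theorem qs_pc : StPC := by
  intro u v Δ r t hu huv hv3 hΔ hr hru
  have hpi : 0 < √Real.pi := Real.sqrt_pos.2 Real.pi_pos
  have hc : 0 < √Real.pi * Δ := mul_pos hpi hΔ
  have hc' : 0 < 1 / (√Real.pi * Δ) := one_div_pos.2 hc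
  have hcc : 1 / (√Real.pi * Δ) * (√Real.pi * Δ) = 1 := by
    field_simp
  have hcE : 1 / (√Real.pi * Δ) * (Real.exp (-(r / Δ) ^ 2) * (√Real.pi * Δ / 2)) =
      Real.exp (-(r / Δ) ^ 2) / 2 := by
    field_simp
  have hE : 0 < Real.exp (-(r / Δ) ^ 2) := Real.exp_pos _
  have hg := gg_int hΔ t
  have hg0 : ∀ S : Set ℝ, 0 ≤ᵐ[volume.restrict S] fun τ => gg τ Δ t :=
    fun S => Eventually.of_forall fun τ => (Real.exp_pos _).le
  rw [PC_eq huv]
  refine ⟨?_, ?_, ?_, ?_, ?_, ?_⟩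
  · exact mul_nonneg hc'.le (setIntegral_nonneg (SS_meas _ _ _) fun τ _ => (Real.exp_pos _).le)
  · have h1 : ∫ τ in SS u v t, gg τ Δ t ≤ √Real.pi * Δ := by
      rw [← gg_total hΔ t]
      exact setIntegral_le_integral hg (Eventually.of_forall fun τ => (Real.exp_pos _).le)
    calc 1 / (√Real.pi * Δ) * ∫ τ in SS u v t, gg τ Δ t ≤ 1 / (√Real.pi * Δ) * (√Real.pi * Δ) :=
          mul_le_mul_of_nonneg_left h1 hc'.le
      _ = 1 := hcc
  · intro ht
    have hS : SS u v t = ∅ := by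
      apply Set.eq_empty_of_forall_notMem
      rintro τ ⟨h1, h2⟩
      linarith [h1.1, h2.2]
    rw [hS, setIntegral_empty, mul_zero]
  · intro ht
    have hS : SS u v t = ∅ := by
      apply Set.eq_empty_of_forall_notMem
      rintro τ ⟨h1, h2⟩
      linarith [h1.2, h2.1]
    rw [hS, setIntegral_empty, mul_zero]
  · intro h1 h2
    have hsub : Ioc (t - r) (t + r) ⊆ SS u v t := by
      rintro τ ⟨h3, h4⟩
      refine ⟨⟨?_, ?_⟩, ?_, ?_⟩ <;> linarith
    have h3 : ∫ τ in Ioc (t - r) (t + r), gg τ Δ t ≤ ∫ τ in SS u v t, gg τ Δ t :=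
      setIntegral_mono_set hg.integrableOn (hg0 _) (HasSubset.Subset.eventuallyLE hsub)
    have h4 := integral_add_compl (measurableSet_Ioc (a := t - r) (b := t + r)) hg
    have h5 : (Ioc (t - r) (t + r))ᶜ = Iic (t - r) ∪ Ioi (t + r) := by
      ext x
      simp only [mem_compl_iff, mem_Ioc, mem_union, mem_Iic, mem_Ioi]
      constructor
      · intro hx
        by_cases hx1 : t - r < x
        · right
          by_contra hx2
          exact hx ⟨hx1, not_lt.1 hx2⟩
        · left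
          exact not_lt.1 hx1
      · rintro (hx | hx) ⟨h6, h7⟩ <;> linarith
    have hdis : Disjoint (Iic (t - r)) (Ioi (t + r)) := by
      rw [Set.disjoint_left]
      intro x hx hx'
      rw [mem_Iic] at hx
      rw [mem_Ioi] at hx'
      linarith
    rw [h5, setIntegral_union hdis measurableSet_Ioi hg.integrableOn hg.integrableOn,
      gg_total hΔ t] at h4
    have h6 := gg_left hΔ hr t
    have h7 := gg_right hΔ hr t
    have h8 : √Real.pi * Δ - 2 * (Real.exp (-(r / Δ) ^ 2) * (√Real.pi * Δ / 2)) ≤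
        ∫ τ in SS u v t, gg τ Δ t := by linarith
    have h9 := mul_le_mul_of_nonneg_left h8 hc'.le
    have h10 : 1 / (√Real.pi * Δ) *
        (√Real.pi * Δ - 2 * (Real.exp (-(r / Δ) ^ 2) * (√Real.pi * Δ / 2))) =
        1 - Real.exp (-(r / Δ) ^ 2) := by
      rw [mul_sub, hcc]
      have : 1 / (√Real.pi * Δ) * (2 * (Real.exp (-(r / Δ) ^ 2) * (√Real.pi * Δ / 2))) =
        2 * (1 / (√Real.pi * Δ) * (Real.exp (-(r / Δ) ^ 2) * (√Real.pi * Δ / 2))) := by ring
      rw [this, hcE]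
      ring
    linarith
  · intro h
    have h1 : ∫ τ in SS u v t, gg τ Δ t ≤ Real.exp (-(r / Δ) ^ 2) * (√Real.pi * Δ / 2) := by
      rcases h with h | h
      · refine le_trans ?_ (gg_right hΔ hr t)
        refine setIntegral_mono_set hg.integrableOn (hg0 _) (HasSubset.Subset.eventuallyLE ?_)
        rintro τ ⟨h2, h3⟩
        rw [mem_Ioi]
        linarith [h2.1]
      · refine le_trans ?_ (gg_left hΔ hr t)
        refine setIntegral_mono_set hg.integrableOn (hg0 _) (HasSubset.Subset.eventuallyLE ?_)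
        rintro τ ⟨h2, h3⟩
        rw [mem_Iic]
        linarith [h2.2]
    have h2 := mul_le_mul_of_nonneg_left h1 hc'.le
    rw [hcE] at h2
    linarith

end Pool.Agent.W864.QS
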